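import Mathlib

/-! Acyclic relations: adding edges and gluing. -/

namespace Pool.Agent.H.MP_ab000d_co

open Relation

variable {V V' : Type}

def Acyc (r : V → V → Prop) : Prop :=
  ∀ a b, r a b → ¬EqvGen (fun c d => r c d ∧ ¬(c = a ∧ d = b)) a b

theorem eqv_map {r : V → V → Prop} {r' : V' → V' → Prop} (f : V → V')
    (h : ∀ a b, r a b → EqvGen r' (f a) (f b)) {a b} (e : EqvGen r a b) :
    EqvGen r' (f a) (f b) := by
  induction e with
  | rel a b e => exact h a b e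
  | refl => exact .refl _
  | symm _ _ _ ih => exact ih.symm _ _
  | trans _ _ _ _ _ i1 i2 => exact i1.trans _ _ _ i2

theorem eqv_supp {r : V → V → Prop} {P : V → Prop} (h : ∀ a b, r a b → P a ∧ P b) {a b}
    (e : EqvGen r a b) : a = b ∨ (P a ∧ P b) := by
  induction e with
  | rel a b e => exact Or.inr (h a b e)
  | refl => exact Or.inl rfl
  | symm _ _ _ ih => exact ih.imp Eq.symm And.symm
  | trans _ _ _ _ _ i1 i2 => grind

theorem Acyc.pull {r : V → V → Prop} {r' : V' → V' → Prop} (f : V → V')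
    (h : ∀ a b, r a b → r' (f a) (f b))
    (hi : ∀ a b c d, r a b → r c d → f c = f a → f d = f b → c = a ∧ d = b) (H : Acyc r') :
    Acyc r := fun a b hab e => H _ _ (h a b hab) (eqv_map f (fun c d hcd =>
      .rel _ _ ⟨h c d hcd.1, fun g => hcd.2 (hi a b c d hab hcd.1 g.1 g.2)⟩) e)

theorem Acyc.mono {r r' : V → V → Prop} (h : ∀ a b, r a b → r' a b) (H : Acyc r') : Acyc r :=
  H.pull id h fun _ _ _ _ _ _ x y => ⟨x, y⟩

theorem eqv_add {s : V → V → Prop} {a b x y : V}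
    (e : EqvGen (fun c d => s c d ∨ (c = a ∧ d = b)) x y) :
    EqvGen s x y ∨ (EqvGen s x a ∧ EqvGen s b y) ∨ (EqvGen s x b ∧ EqvGen s a y) := by
  simp only [← Quot.eq]
  induction e with
  | rel c d e =>
    rcases e with e | ⟨rfl, rfl⟩
    · exact Or.inl (Quot.sound e)
    · exact Or.inr (Or.inl ⟨rfl, rfl⟩)
  | refl => exact Or.inl rfl
  | symm _ _ _ ih => grind
  | trans _ _ _ _ _ i1 i2 => grind

theorem Acyc.add {r : V → V → Prop} {a b : V} (h : Acyc r) (hn : ¬EqvGen r a b) :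
    Acyc fun c d => r c d ∨ (c = a ∧ d = b) := by
  intro c d hcd e
  by_cases k : c = a ∧ d = b
  · obtain ⟨rfl, rfl⟩ := k
    exact hn (eqv_map id (fun x y g => .rel _ _ (g.1.resolve_right g.2)) e)
  have r0 := hcd.resolve_right k
  have m : ∀ {x y}, EqvGen (fun x y => r x y ∧ ¬(x = c ∧ y = d)) x y → EqvGen r x y :=
    fun g => eqv_map id (fun _ _ g => .rel _ _ g.1) g
  rcases eqv_add (s := fun x y => r x y ∧ ¬(x = c ∧ y = d)) (a := a) (b := b)
    (eqv_map id (fun x y g => .rel _ _ (g.1.imp_left fun z => ⟨z, g.2⟩)) e) with g | g | g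
  · exact h c d r0 g
  · exact hn (((m g.1).symm _ _).trans _ _ _ ((EqvGen.rel _ _ r0).trans _ _ _ ((m g.2).symm _ _)))
  · exact hn ((m g.2).trans _ _ _ (((EqvGen.rel _ _ r0).symm _ _).trans _ _ _ (m g.1)))

theorem reach_tr {H Y : V → V → Prop} {e' : V' → V' → Prop} (f : V → V') (D : V → Prop)
    (hY : ∀ a b, Y a b → D a ∧ D b ∧ EqvGen e' (f a) (f b))
    (hS : ∀ a b, D a → D b → EqvGen H a b → EqvGen e' (f a) (f b)) {a b} (ha : D a) (hb : D b)
    (h : EqvGen (fun c d => H c d ∨ Y c d) a b) : EqvGen e' (f a) (f b) := by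
  have key : ∀ {x y}, EqvGen (fun c d => H c d ∨ Y c d) x y → EqvGen H x y ∨
      ∃ c d, D c ∧ D d ∧ EqvGen H x c ∧ EqvGen e' (f c) (f d) ∧ EqvGen H d y := by
    intro x y e
    induction e with
    | rel c d e =>
      exact e.imp (.rel _ _) fun g =>
        ⟨c, d, (hY _ _ g).1, (hY _ _ g).2.1, .refl _, (hY _ _ g).2.2, .refl _⟩
    | refl => exact Or.inl (.refl _)
    | symm _ _ _ ih =>
      exact ih.imp (.symm _ _) fun ⟨c, d, p, q, u, v, w⟩ =>
        ⟨d, c, q, p, w.symm _ _, v.symm _ _, u.symm _ _⟩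
    | trans _ _ _ _ _ i1 i2 =>
      rcases i1 with i1 | ⟨c, d, p, q, u, v, w⟩ <;> rcases i2 with i2 | ⟨c', d', p', q', u', v', w'⟩
      · exact Or.inl (i1.trans _ _ _ i2)
      · exact Or.inr ⟨c', d', p', q', i1.trans _ _ _ u', v', w'⟩
      · exact Or.inr ⟨c, d, p, q, u, v, w.trans _ _ _ i2⟩
      · exact Or.inr ⟨c, d', p, q', u,
          v.trans _ _ _ ((hS _ _ q p' (w.trans _ _ _ u')).trans _ _ _ v'), w'⟩
  rcases key h with g | ⟨c, d, p, q, u, v, w⟩
  · exact hS _ _ ha hb g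
  · exact (hS _ _ ha p u).trans _ _ _ (v.trans _ _ _ (hS _ _ q hb w))

theorem acyc_glue {H : V → V → Prop} {H' e' : V' → V' → Prop} (f : V → V') (D : V → Prop)
    (hA : Acyc H) (hA' : Acyc e') (h' : ∀ a b, H' a b → e' a b)
    (hi : ∀ a b, D a → D b → f a = f b → a = b)
    (hS : ∀ a b, D a → D b → EqvGen H a b → EqvGen H' (f a) (f b)) (Y : Set (V × V))
    (hf : Y.Finite) : (∀ p ∈ Y, D p.1 ∧ D p.2 ∧ e' (f p.1) (f p.2) ∧ ¬H' (f p.1) (f p.2)) →
      Acyc fun a b => H a b ∨ (a, b) ∈ Y := by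
  induction Y, hf using Set.Finite.induction_on with
  | empty => exact fun _ => hA.mono (by simp)
  | @insert p Y hp _ ih =>
    intro hY
    obtain ⟨p1, p2, p3, p4⟩ := hY p (Set.mem_insert _ _)
    have hY' := fun q hq => hY q (Set.mem_insert_of_mem _ hq)
    refine ((ih hY').add (a := p.1) (b := p.2) fun e => hA' _ _ p3
      (reach_tr f D (fun a b g => ?_) (fun a b ha hb g => ?_) p1 p2 e)).mono ?_
    · obtain ⟨q1, q2, q3, -⟩ := hY' _ g
      refine ⟨q1, q2, .rel _ _ ⟨q3, fun k => hp ?_⟩⟩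
      rwa [show (a, b) = p from Prod.ext (hi _ _ q1 p1 k.1) (hi _ _ q2 p2 k.2)] at g
    · exact eqv_map id (fun c d k => .rel _ _ ⟨h' c d k, fun z => p4 (z.1 ▸ z.2 ▸ k)⟩)
        (hS a b ha hb g)
    · rintro a b (g | rfl | g)
      exacts [Or.inl (Or.inl g), Or.inr ⟨rfl, rfl⟩, Or.inl (Or.inr g)]

end Pool.Agent.H.MP_ab000d_co
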