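import Pool.Agent.H.MP_ab000d_co.A

/-! Ordered graphs, amalgams along a window, pumping and shrinking. -/

namespace Pool.Agent.H.MP_ab000d_co

open Relation

@[ext] structure Pc where
  n : ℕ
  E : ℕ → ℕ → Prop
  lt : ∀ {a b}, E a b → a < b ∧ b < n

def occ (x z : Pc) (i : ℕ) : Prop :=
  i + x.n ≤ z.n ∧ ∀ a b, b < x.n → (x.E a b ↔ z.E (i + a) (i + b))

def ok (B : Set Pc) (x : Pc) : Prop := 0 < x.n ∧ Acyc x.E ∧ ∀ b ∈ B, ∀ i, ¬occ b x i

def sub (z : Pc) (s k : ℕ) : Pc :=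
  ⟨k, fun a b => b < k ∧ z.E (s + a) (s + b), fun h => ⟨by have := z.lt h.2; omega, h.1⟩⟩

abbrev conn (x : Pc) : ℕ → ℕ → Prop := EqvGen x.E

def W (m : ℕ) (x : Pc) (s : ℕ) (y : Pc) (t : ℕ) : Prop :=
  ∀ a b, b < m → (x.E (s + a) (s + b) ↔ y.E (t + a) (t + b))

variable {B : Set Pc} {x y z w u v t : Pc} {i j k m s s' d : ℕ}

theorem occ_refl (x : Pc) : occ x x 0 := ⟨by simp, by simp⟩

theorem occ.trans (h : occ x y i) (h' : occ y z j) : occ x z (j + i) :=
  ⟨by have := h.1; have := h'.1; omega, fun a b hb => by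
    rw [h.2 a b hb, h'.2 _ _ (by have := h.1; omega), add_assoc, add_assoc]⟩

theorem occ_sub (h : s + k ≤ z.n) : occ (sub z s k) z s :=
  ⟨h, fun _ _ hb => ⟨fun h => h.2, fun h => ⟨hb, h⟩⟩⟩

theorem occ.inside (h : occ y w (i + d)) (h' : occ x w i) (e : d + y.n ≤ x.n) : occ y x d :=
  ⟨e, fun a b hb => by rw [h.2 a b hb, h'.2 _ _ (by omega), add_assoc, add_assoc]⟩

theorem occ.eq (h : occ x w i) (h' : occ y w i) (e : x.n = y.n) : x = y := by
  refine Pc.ext e (funext fun a => funext fun b => propext ?_)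
  by_cases hb : b < x.n
  · rw [h.2 a b hb, h'.2 a b (e ▸ hb)]
  · exact ⟨fun g => (hb (x.lt g).2).elim, fun g => (hb (e ▸ (y.lt g).2)).elim⟩

theorem occ.edge (h : occ x z i) {a b} (e : x.E a b) : z.E (i + a) (i + b) :=
  (h.2 a b (x.lt e).2).1 e

theorem occ.conn (h : occ x z i) {a b} (e : conn x a b) : conn z (i + a) (i + b) :=
  eqv_map (i + ·) (fun _ _ g => .rel _ _ (h.edge g)) e

theorem ok.of_occ (H : ok B z) (h : occ x z i) (hx : 0 < x.n) : ok B x :=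
  ⟨hx, H.2.1.pull (i + ·) (fun _ _ => h.edge) fun _ _ _ _ _ _ p q => ⟨by omega, by omega⟩,
    fun b hb _ g => H.2.2 b hb _ (g.trans h)⟩

theorem W.of_occ (h : occ t x i) (h' : occ t y j) : W t.n x i y j :=
  fun a b hb => (h.2 a b hb).symm.trans (h'.2 a b hb)

theorem occ.of_W (h : occ t x i) (h' : W t.n x i y j) (e : j + t.n ≤ y.n) : occ t y j :=
  ⟨e, fun a b hb => (h.2 a b hb).trans (h' a b hb)⟩

theorem W.trans (h : W m x i y j) (h' : W m y j z k) : W m x i z k :=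
  fun a b hb => (h a b hb).trans (h' a b hb)

theorem conn_supp {a b} (h : conn x a b) : a = b ∨ (a < x.n ∧ b < x.n) :=
  eqv_supp (P := (· < x.n)) (fun _ _ g => ⟨(x.lt g).1.trans (x.lt g).2, (x.lt g).2⟩) h

theorem fin_edges {Y : Set (ℕ × ℕ)} {n : ℕ} (h : ∀ p ∈ Y, p.1 < n ∧ p.2 < n) : Y.Finite :=
  ((Set.finite_Iio n).prod (Set.finite_Iio n)).subset h

def sh (s : ℕ) (v : Pc) (a b : ℕ) : Prop := ∃ a' b', a = s + a' ∧ b = s + b' ∧ v.E a' b'

theorem sh_iff {a b} : sh s v (s + a) (s + b) ↔ v.E a b :=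
  ⟨fun ⟨a', b', p, q, h⟩ => by
    rwa [show a = a' by omega, show b = b' by omega], fun h => ⟨a, b, rfl, rfl, h⟩⟩

def am (s : ℕ) (u v : Pc) : Pc :=
  ⟨s + v.n, fun a b => (u.E a b ∧ b < s + v.n) ∨ sh s v a b, by
    rintro a b (h | ⟨a', b', rfl, rfl, h⟩)
    · exact ⟨(u.lt h.1).1, h.2⟩
    · have := v.lt h
      omega⟩

structure Ov (m s : ℕ) (u v : Pc) : Prop where
  l : u.n = s + m
  r : m ≤ v.n
  e : ∀ a b, b < m → (u.E (s + a) (s + b) ↔ v.E a b)

theorem Ov.left (h : Ov m s u v) : occ u (am s u v) 0 := by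
  have h1 := h.l
  have h2 := h.r
  refine ⟨by simp only [am]; omega, fun a b hb => ?_⟩
  simp only [zero_add, am]
  refine ⟨fun g => Or.inl ⟨g, by omega⟩, ?_⟩
  rintro (g | ⟨a', b', rfl, rfl, g⟩)
  exacts [g.1, (h.e _ _ (by omega)).2 g]

theorem Ov.right (h : Ov m s u v) : occ v (am s u v) s := by
  refine ⟨le_rfl, fun a b hb => ⟨fun g => Or.inr (sh_iff.2 g), ?_⟩⟩
  rintro (g | g)
  · have := u.lt g.1
    exact (h.e _ _ (by have := h.l; omega)).1 g.1
  · exact sh_iff.1 g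

theorem Ov.good (h : Ov m s u v) (hB : ∀ b ∈ B, b.n ≤ m) (hu : ok B u) (hv : ok B v)
    (hA : Acyc (am s u v).E) : ok B (am s u v) := by
  refine ⟨by have := hv.1; simp only [am]; omega, hA, fun b hb i g => ?_⟩
  have := hB b hb
  rcases le_total i s with e | e
  · exact hu.2.2 b hb i (occ.inside (i := 0) (by simpa using g) h.left (by have := h.l; omega))
  · obtain ⟨d, rfl⟩ := Nat.exists_eq_add_of_le e
    exact hv.2.2 b hb d (g.inside h.right (by have := g.1; simp only [am] at this; omega))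

theorem am_sub (h : occ u w i) (h' : occ v w (i + s)) (hA : Acyc w.E) : Acyc (am s u v).E := by
  refine hA.pull (i + ·) ?_ fun _ _ _ _ _ _ p q => ⟨by omega, by omega⟩
  rintro a b (g | ⟨a', b', rfl, rfl, g⟩)
  · exact h.edge g.1
  · simpa only [add_assoc] using h'.edge g

theorem am_left {u' : Pc} (h : Ov m s u v) (h' : Ov m s' u' v) (hu : Acyc u.E)
    (hC : ∀ a < m, ∀ b < m, conn u (s + a) (s + b) → conn u' (s' + a) (s' + b))
    (hA : Acyc (am s' u' v).E) : Acyc (am s u v).E := by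
  refine (acyc_glue (H' := u'.E) (fun a => s' + (a - s)) (s ≤ ·) hu hA
    (fun a b g => by simpa using h'.left.edge g) (fun a b p q e => by omega)
    (fun a b p q g => ?_) {p | ∃ a' b', p = (s + a', s + b') ∧ v.E a' b' ∧ m ≤ b'}
    (fin_edges (n := s + v.n) ?_) ?_).mono ?_
  · obtain ⟨a, rfl⟩ := Nat.exists_eq_add_of_le p
    obtain ⟨b, rfl⟩ := Nat.exists_eq_add_of_le q
    simp only [Nat.add_sub_cancel_left]
    have := h.l
    rcases conn_supp g with e | e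
    · rw [show a = b by omega]
      exact .refl _
    · exact hC a (by omega) b (by omega) g
  · rintro _ ⟨a, b, rfl, g, -⟩
    have := v.lt g
    constructor <;> simp only <;> omega
  · rintro _ ⟨a, b, rfl, g, k⟩
    simp only [Nat.add_sub_cancel_left]
    exact ⟨by omega, by omega, h'.right.edge g, fun z => by have := u'.lt z; have := h'.l; omega⟩
  · rintro a b (g | ⟨a', b', rfl, rfl, g⟩)
    · exact Or.inl g.1
    · by_cases k : b' < m
      exacts [Or.inl ((h.e _ _ k).2 g), Or.inr ⟨a', b', rfl, g, by omega⟩]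

theorem am_right {v' : Pc} (h : Ov m s u v) (h' : Ov m s u v') (hv : Acyc v.E)
    (hC : ∀ a < m, ∀ b < m, conn v a b → conn v' a b) (hA : Acyc (am s u v').E) :
    Acyc (am s u v).E := by
  have k1 : ∀ a b, sh s v a b → v.E (a - s) (b - s) := by
    rintro _ _ ⟨a, b, rfl, rfl, g⟩
    simpa using g
  have k2 : ∀ a b, sh s v a b → s ≤ a ∧ s ≤ b := by
    rintro _ _ ⟨a, b, rfl, rfl, g⟩
    omega
  refine (acyc_glue (H := sh s v) (H' := sh s v') id (· < s + m)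
    (hv.pull (· - s) k1 fun a b c d p q e e' => by have := k2 _ _ p; have := k2 _ _ q; omega) hA
    (fun a b g => Or.inr g) (fun a b _ _ e => e) (fun a b p q g => ?_)
    {p | u.E p.1 p.2 ∧ p.1 < s} (fin_edges (n := u.n) fun p g => ⟨(u.lt g.1).1.trans (u.lt g.1).2,
      (u.lt g.1).2⟩) (fun p g => ?_)).mono ?_
  · rcases eqv_supp (P := (s ≤ ·)) k2 g with rfl | ⟨e, e'⟩
    · exact .refl _
    have := eqv_map (r' := sh s v') (s + ·) (fun _ _ g => .rel _ _ (sh_iff.2 g))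
      (hC _ (by omega) _ (by omega) (eqv_map (· - s) (fun _ _ g => .rel _ _ (k1 _ _ g)) g))
    simpa only [id, Nat.add_sub_cancel' e, Nat.add_sub_cancel' e'] using this
  · have := u.lt g.1
    have := h.l
    have := g.2
    refine ⟨by omega, by omega, by simpa using h'.left.edge g.1, ?_⟩
    rintro ⟨a, b, e, -⟩
    simp only [id] at e
    omega
  · rintro a b (g | g)
    · by_cases k : a < s
      · exact Or.inr ⟨g.1, k⟩
      have := u.lt g.1
      have := h.l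
      obtain ⟨a, rfl⟩ := Nat.exists_eq_add_of_le (not_lt.1 k)
      obtain ⟨b, rfl⟩ := Nat.exists_eq_add_of_le (show s ≤ b by omega)
      exact Or.inl (sh_iff.2 ((h.e _ _ (by omega)).1 g.1))
    · exact Or.inl g

theorem repl_left {x' : Pc} (hm : 0 < m) (hB : ∀ b ∈ B, b.n ≤ m) (hx : ok B x) (hw : ok B w)
    (n1 : x.n = s + m) (n2 : x'.n = s' + m) (hE : W m x s x' s')
    (hC : ∀ a < m, ∀ b < m, conn x (s + a) (s + b) → conn x' (s' + a) (s' + b))
    (ho : occ x' w i) : ∃ w', ok B w' ∧ occ x w' 0 ∧ w'.n + i + s' = w.n + s ∧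
      ∀ y d, occ y w (i + s' + d) → occ y w' (s + d) := by
  have h1 := ho.1
  have hv : occ (sub w (i + s') (w.n - (i + s'))) w (i + s') := occ_sub (by omega)
  have vn : (sub w (i + s') (w.n - (i + s'))).n = w.n - (i + s') := rfl
  have o' : Ov m s' x' (sub w (i + s') (w.n - (i + s'))) := ⟨n2, by omega, fun a b hb => by
    rw [ho.2 _ _ (by omega), hv.2 _ _ (by omega), add_assoc, add_assoc]⟩
  have o : Ov m s x (sub w (i + s') (w.n - (i + s'))) :=
    ⟨n1, by omega, fun a b hb => (hE a b hb).trans (o'.e a b hb)⟩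
  refine ⟨_, o.good hB hx (hw.of_occ hv (by omega)) (am_left o o' hx.2.1 hC (am_sub ho hv hw.2.1)),
    o.left, by simp only [am]; omega, fun y d g => ?_⟩
  exact (g.inside hv (by have := g.1; omega)).trans o.right

theorem repl_right {y' : Pc} (hm : 0 < m) (hB : ∀ b ∈ B, b.n ≤ m) (hy : ok B y) (hw : ok B w)
    (n1 : m ≤ y.n) (n2 : m ≤ y'.n) (hE : W m y 0 y' 0)
    (hC : ∀ a < m, ∀ b < m, conn y a b → conn y' a b) (ho : occ y' w j) :
    ∃ w', ok B w' ∧ occ y w' j ∧ ∀ x i, occ x w i → i + x.n ≤ j + m → occ x w' i := by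
  have h1 := ho.1
  have hu : occ (sub w 0 (j + m)) w 0 := occ_sub (by omega)
  have un : (sub w 0 (j + m)).n = j + m := rfl
  have o' : Ov m j (sub w 0 (j + m)) y' := ⟨rfl, n2, fun a b hb => by
    rw [ho.2 _ _ (by omega), hu.2 _ _ (by omega), zero_add, zero_add]⟩
  have o : Ov m j (sub w 0 (j + m)) y :=
    ⟨rfl, n1, fun a b hb => (o'.e a b hb).trans (by simpa using (hE a b hb).symm)⟩
  refine ⟨_, o.good hB (hw.of_occ hu (by omega)) hy
    (am_right o o' hy.2.1 hC (am_sub hu (by simpa using ho) hw.2.1)), o.right, fun x i g e => ?_⟩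
  simpa using (occ.inside (i := 0) (by simpa using g) hu e).trans o.left

def Same (m : ℕ) (z : Pc) (p q : ℕ) : Prop := W m z p z q ∧ ∀ a < m, ∀ b < m,
  conn (sub z 0 (p + m)) (p + a) (p + b) → conn (sub z 0 (q + m)) (q + a) (q + b)

theorem pig (m : ℕ) (z z' : Pc) (s : ℕ) :
    ∃ p q, s ≤ p ∧ p < q ∧ q ≤ s + 16 ^ (m * m) ∧ Same m z p q ∧ Same m z' p q := by
  classical
  let σ : Pc → ℕ → (Fin m → Fin m → Prop) × (Fin m → Fin m → Prop) := fun z p =>
    (fun a b => z.E (p + a) (p + b), fun a b => conn (sub z 0 (p + m)) (p + a) (p + b))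
  have k : ∀ z p q, σ z p = σ z q → Same m z p q := fun z p q e => by
    simp only [σ, Prod.mk.injEq, funext_iff, eq_iff_iff] at e
    refine ⟨fun a b hb => ?_, fun a ha b hb => (e.2 ⟨a, ha⟩ ⟨b, hb⟩).1⟩
    by_cases ha : a < m
    · exact e.1 ⟨a, ha⟩ ⟨b, hb⟩
    · exact ⟨fun g => by have := z.lt g; omega, fun g => by have := z.lt g; omega⟩
  obtain ⟨p, q, h1, h2⟩ := Fintype.exists_ne_map_eq_of_card_lt
    (fun p : Fin (16 ^ (m * m) + 1) => (σ z (s + p), σ z' (s + p))) (by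
      simp only [Fintype.card_prod, Fintype.card_fun, Fintype.card_prop, Fintype.card_fin,
        ← pow_mul, ← mul_pow]
      exact Nat.lt_succ_self _)
  rw [Prod.mk.injEq] at h2
  have := p.2
  have := q.2
  rcases lt_or_gt_of_ne (Fin.val_ne_of_ne h1) with h | h
  · exact ⟨s + p, s + q, by omega, by omega, by omega, k _ _ _ h2.1, k _ _ _ h2.2⟩
  · exact ⟨s + q, s + p, by omega, by omega, by omega, k _ _ _ h2.1.symm, k _ _ _ h2.2.symm⟩

theorem pump {p q : ℕ} (hm : 0 < m) (hB : ∀ b ∈ B, b.n ≤ m) (hz : ok B z) (h : Same m z p q)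
    (e : p ≤ q) (e' : q + m ≤ z.n) : ∃ z', ok B z' ∧ z'.n + q = z.n + p ∧
      (∀ y j, occ y z j → j + y.n ≤ p + m → occ y z' j) ∧
      ∀ y d, occ y z (q + d) → occ y z' (p + d) := by
  have h1 : occ (sub z 0 (p + m)) z 0 := occ_sub (by omega)
  have h2 : occ (sub z 0 (q + m)) z 0 := occ_sub (by omega)
  obtain ⟨w, a, b, c, d⟩ := repl_left (s := p) (s' := q) hm hB
    (hz.of_occ h1 (by simp only [sub]; omega)) hz rfl rfl (fun a b hb => by
      simpa [sub, hb] using h.1 a b hb) h.2 h2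
  refine ⟨w, a, by omega, fun y j g k => ?_, fun y d' g => d y d' (by simpa using g)⟩
  simpa using (occ.inside (i := 0) (by simpa using g) h1 k).trans b

theorem short_ok {x' : Pc} (hB : ∀ b ∈ B, b.n ≤ m) (hx : ok B x) (e : x'.n = x.n)
    (h : ∀ c d, d < c + m → (x.E c d ↔ x'.E c d)) (hA : Acyc x'.E) : ok B x' :=
  ⟨e ▸ hx.1, hA, fun b hb i g => hx.2.2 b hb i ⟨e ▸ g.1, fun c d hd => by
    rw [g.2 c d hd, h _ _ (by have := hB b hb; omega)]⟩⟩

theorem add_edge (hB : ∀ b ∈ B, b.n ≤ m) (hm : 0 < m) (hx : ok B x) {a b : ℕ} (h : a + m ≤ b)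
    (hb : b < x.n) : ∃ x', ok B x' ∧ x'.n = x.n ∧ (∀ c d, x.E c d → x'.E c d) ∧
      (∀ c d, d < c + m → (x.E c d ↔ x'.E c d)) ∧ conn x' a b := by
  by_cases k : conn x a b
  · exact ⟨x, hx, rfl, fun _ _ => id, fun _ _ _ => Iff.rfl, k⟩
  let x' : Pc := ⟨x.n, fun c d => x.E c d ∨ (c = a ∧ d = b), by
    rintro c d (g | ⟨rfl, rfl⟩)
    exacts [x.lt g, ⟨by omega, hb⟩]⟩
  have e : ∀ c d, d < c + m → (x.E c d ↔ x'.E c d) := fun c d hd =>
    ⟨Or.inl, fun g => g.resolve_right (by omega)⟩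
  exact ⟨x', short_ok hB hx rfl e (hx.2.1.add k), rfl, fun _ _ => Or.inl, e,
    .rel _ _ (Or.inr ⟨rfl, rfl⟩)⟩

theorem add_all (hB : ∀ b ∈ B, b.n ≤ m) (hm : 0 < m) (hx : ok B x) {c : ℕ} (hc : c < x.n)
    (l : List ℕ) (hl : ∀ a ∈ l, a < x.n ∧ (a + m ≤ c ∨ c + m ≤ a)) :
    ∃ x', ok B x' ∧ x'.n = x.n ∧ (∀ c d, d < c + m → (x.E c d ↔ x'.E c d)) ∧
      ∀ a ∈ l, conn x' a c := by
  induction l with
  | nil => exact ⟨x, hx, rfl, fun _ _ _ => Iff.rfl, by simp⟩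
  | cons a l ih =>
    obtain ⟨y, y1, y2, y3, y4⟩ := ih fun b hb => hl b (List.mem_cons_of_mem _ hb)
    obtain ⟨a1, a2⟩ := hl a List.mem_cons_self
    have : ∃ x', ok B x' ∧ x'.n = y.n ∧ (∀ c d, y.E c d → x'.E c d) ∧
        (∀ c d, d < c + m → (y.E c d ↔ x'.E c d)) ∧ conn x' a c := by
      rcases a2 with a2 | a2
      · exact add_edge hB hm y1 a2 (y2 ▸ hc)
      · obtain ⟨z, z1, z2, z3, z4, z5⟩ := add_edge hB hm y1 a2 (y2 ▸ a1)
        exact ⟨z, z1, z2, z3, z4, z5.symm _ _⟩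
    obtain ⟨z, z1, z2, z3, z4, z5⟩ := this
    refine ⟨z, z1, z2.trans y2, fun c d h => (y3 c d h).trans (z4 c d h), fun b hb => ?_⟩
    rcases List.mem_cons.1 hb with rfl | hb
    exacts [z5, eqv_map id (fun _ _ g => .rel _ _ (z3 _ _ g)) (y4 b hb)]

structure Sh (B : Set Pc) (m : ℕ) (x x' : Pc) : Prop where
  l : ∀ w i, ok B w → occ x' w i → ∃ w' i', ok B w' ∧ occ x w' i' ∧
    ∀ y j, occ y w j → i + x'.n ≤ j + m → ∃ j', occ y w' j' ∧ j' + i + x'.n = j + i' + x.n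
  r : ∀ w j, ok B w → occ x' w j → ∃ w', ok B w' ∧ occ x w' j ∧
    ∀ y i, occ y w i → i + y.n ≤ j + m → occ y w' i
  a : ∀ t : Pc, t.n = m → occ t x 0 → occ t x' 0
  b : ∀ (t : Pc) k, t.n = m → occ t x k → k + m = x.n → ∃ k', occ t x' k' ∧ k' + m = x'.n

def N (m : ℕ) : ℕ := 4 * m + 16 ^ (m * m)

theorem shrink1 (hm : 0 < m) (hB : ∀ b ∈ B, b.n ≤ m) : ∀ n (x : Pc), x.n = n → ok B x → 4 * m ≤ n →
    ∃ x' s s', ok B x' ∧ 4 * m ≤ x'.n ∧ x'.n ≤ N m ∧ x.n = s + m ∧ x'.n = s' + m ∧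
      W m x 0 x' 0 ∧ W m x s x' s' := by
  intro n
  induction n using Nat.strong_induction_on with
  | _ n ih =>
    intro x e hx h
    by_cases k : n ≤ N m
    · exact ⟨x, n - m, n - m, hx, by omega, by omega, by omega, by omega, fun _ _ _ => Iff.rfl,
        fun _ _ _ => Iff.rfl⟩
    rw [N] at k
    obtain ⟨p, q, -, p1, p2, p3, -⟩ := pig m x x 0
    obtain ⟨y, y1, y2, y3, y4⟩ := pump hm hB hx p3 p1.le (by omega)
    obtain ⟨z, s, s', z1, z2, z3, z4, z5, z6, z7⟩ := ih y.n (by omega) y rfl y1 (by omega)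
    obtain ⟨d, hd⟩ : ∃ d, n = q + d + m := ⟨n - q - m, by omega⟩
    have o1 : occ (sub x 0 m) x 0 := occ_sub (by omega)
    have o2 : occ (sub x (q + d) m) x (q + d) := occ_sub (by omega)
    refine ⟨z, q + d, s', z1, z2, z3, by omega, z5,
      (W.of_occ o1 (y3 _ _ o1 (by simp [sub]))).trans z6, (W.of_occ o2 (y4 _ _ o2)).trans ?_⟩
    rwa [show p + d = s by omega]

theorem shrink {B' : Set Pc} (hm : 0 < m) (hB : ∀ b ∈ B', b.n ≤ m) (hs : B ⊆ B') (hx : ok B' x) :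
    ∃ x', ok B' x' ∧ x'.n ≤ N m ∧ Sh B m x x' := by
  by_cases k : x.n ≤ N m
  · exact ⟨x, hx, k, fun w i a b => ⟨w, i, a, b, fun y j c _ => ⟨j, c, rfl⟩⟩,
      fun w j a b => ⟨w, a, b, fun _ _ c _ => c⟩, fun _ _ => id, fun _ k _ a b => ⟨k, a, b⟩⟩
  obtain ⟨y, s, s', y1, y2, y3, y4, y5, y6, y7⟩ :=
    shrink1 hm hB _ x rfl hx ((Nat.le_add_right _ _).trans (not_le.1 k).le)
  obtain ⟨z, z1, z2, z3, z4⟩ := add_all hB hm y1 (c := 2 * m) (by omega)
    (List.range m ++ (List.range m).map (s' + ·)) (by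
      simp only [List.mem_append, List.mem_range, List.mem_map]
      rintro a (h | ⟨a, h, rfl⟩) <;> omega)
  have w : ∀ t, W m y t z t := fun t a b hb => z3 _ _ (by omega)
  have hx' : ok B x := ⟨hx.1, hx.2.1, fun b hb => hx.2.2 b (hs hb)⟩
  have hB' : ∀ b ∈ B, b.n ≤ m := fun b hb => hB b (hs hb)
  refine ⟨z, z1, by omega, fun w' i a b => ?_, fun w' j a b => repl_right hm hB' hx' a (by omega)
    (by omega) (y6.trans (w 0)) (fun a ha b hb _ => (z4 a (by simp [ha])).trans _ _ _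
      ((z4 b (by simp [hb])).symm _ _)) b, fun t e h => h.of_W (e ▸ y6.trans (w 0)) (by omega),
    fun t k e h e' => ⟨s', h.of_W ?_ (by omega), by omega⟩⟩
  · obtain ⟨w'', c1, c2, -, c3⟩ := repl_left hm hB' hx' a y4 (z2.trans y5) (y7.trans (w s'))
      (fun a ha b hb _ => (z4 _ (by simp [ha])).trans _ _ _ ((z4 _ (by simp [hb])).symm _ _)) b
    refine ⟨w'', 0, c1, c2, fun y j g e => ?_⟩
    obtain ⟨d, rfl⟩ := Nat.exists_eq_add_of_le (show i + s' ≤ j by omega)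
    exact ⟨_, c3 y d g, by omega⟩
  · rw [e, show k = s by omega]
    exact y7.trans (w s')

end Pool.Agent.H.MP_ab000d_co
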