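import Pool.Agent.H.MP_ab000d_co.B
import Pool.Agent.H.MP_4eb715_lc.A

/-! Finite certificates for the joint embedding property. -/

namespace Pool.Agent.H.MP_ab000d_co

open Relation Pool.Agent.H.MP_4eb715_lc

abbrev Cd : Type := ℕ × List (ℕ × ℕ)

def P (c : Cd) : Pc :=
  ⟨c.1, fun a b => a < b ∧ b < c.1 ∧ ((a, b) ∈ c.2 ∨ (b, a) ∈ c.2), fun h => ⟨h.1, h.2.1⟩⟩

def codes (b : ℕ) : List Cd := (List.range (b + 1)).flatMap fun k =>
  (prod (List.range k) (List.range k)).sublists'.map fun L => (k, L)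

theorem codes_le {b : ℕ} {c : Cd} (h : c ∈ codes b) : (P c).n ≤ b := by
  obtain ⟨k, h1, h2⟩ := List.mem_flatMap.1 h
  obtain ⟨L, -, rfl⟩ := List.mem_map.1 h2
  exact Nat.lt_succ_iff.1 (List.mem_range.1 h1)

theorem exists_code {b : ℕ} (x : Pc) (h : x.n ≤ b) : ∃ c ∈ codes b, P c = x := by
  refine ⟨(x.n, flt (prod (List.range x.n) (List.range x.n)) fun z => x.E z.1 z.2),
    List.mem_flatMap.2 ⟨x.n, List.mem_range.2 (by omega), List.mem_map.2 ⟨_, flt_sub _ _, rfl⟩⟩,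
    Pc.ext rfl (funext fun a => funext fun b => propext ?_)⟩
  simp only [P, mem_flt, mem_prod, List.mem_range]
  refine ⟨fun g => g.2.2.elim (·.2) fun k => by have := x.lt k.2; omega, fun g => ?_⟩
  have := x.lt g
  exact ⟨this.1, this.2, Or.inl ⟨⟨by omega, this.2⟩, g⟩⟩

theorem all_iff {b : ℕ} {φ : Pc → Prop} : (∀ x : Pc, x.n ≤ b → φ x) ↔ ∀ c ∈ codes b, φ (P c) :=
  ⟨fun h _ hc => h _ (codes_le hc), fun h x hx => by
    obtain ⟨c, h1, rfl⟩ := exists_code x hx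
    exact h c h1⟩

theorem ex_iff {b : ℕ} {φ : Pc → Prop} : (∃ x : Pc, x.n ≤ b ∧ φ x) ↔ ∃ c ∈ codes b, φ (P c) :=
  ⟨fun ⟨x, hx, h⟩ => by
    obtain ⟨c, h1, rfl⟩ := exists_code x hx
    exact ⟨c, h1, h⟩, fun ⟨c, hc, h⟩ => ⟨_, codes_le hc, h⟩⟩

theorem finsup (b : ℕ) {H : Pc → Pc → Prop} {Q : Pc → Pc → Pc → Prop}
    (h : ∀ x y, H x y → ∃ w, Q x y w) :
    ∃ M, ∀ x : Pc, x.n ≤ b → ∀ y : Pc, y.n ≤ b → H x y → ∃ w : Pc, w.n ≤ M ∧ Q x y w := by
  choose! f hf using h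
  have hS : {x : Pc | x.n ≤ b}.Finite :=
    ((List.finite_toSet (codes b)).image P).subset fun x hx => exists_code x hx
  obtain ⟨M, hM⟩ := ((hS.prod hS).image fun z => (f z.1 z.2).n).bddAbove
  exact ⟨M, fun x hx y hy g => ⟨_, hM ⟨(x, y), ⟨hx, hy⟩, rfl⟩, hf x y g⟩⟩

def JW (B : Set Pc) (w x y : Pc) (φ : ℕ → ℕ → Prop) : Prop :=
  ok B w ∧ ∃ i ≤ w.n, ∃ j ≤ w.n, occ x w i ∧ occ y w j ∧ φ i j

variable {B : Set Pc} {x y z w t : Pc} {i j k m : ℕ}

theorem JW.mk' {φ : ℕ → ℕ → Prop} (h : ok B w) (a : occ x w i) (b : occ y w j) (c : φ i j) :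
    JW B w x y φ := ⟨h, i, by have := a.1; omega, j, by have := b.1; omega, a, b, c⟩

def J (B : Set Pc) (x y : Pc) : Prop := ∃ w i j, ok B w ∧ occ x w i ∧ occ y w j

def Atom (B : Set Pc) : Prop := ∀ x y, ok B x → ok B y → J B x y

theorem J.symm (h : J B x y) : J B y x := by
  obtain ⟨w, i, j, a, b, c⟩ := h
  exact ⟨w, j, i, a, c, b⟩

theorem J_le (hm : 0 < m) (hB : ∀ b ∈ B, b.n ≤ m) (hx : 0 < x.n) : ∀ d w i, ok B w → occ x w i →
    occ y w (i + d) → ∃ w : Pc, w.n ≤ x.n + y.n + N m ∧ JW B w x y fun _ _ => True := by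
  intro d
  induction d using Nat.strong_induction_on with
  | _ d ih =>
    intro w i h a b
    have a1 := a.1
    have b1 := b.1
    by_cases k : d ≤ x.n + N m
    · have o : occ (sub w i (max x.n (d + y.n))) w i := occ_sub (by omega)
      exact ⟨_, by simp only [sub]; omega, .mk' (h.of_occ o (by simp only [sub]; omega))
        (occ.inside (d := 0) a o (by simp [sub])) (b.inside o (by simp [sub])) trivial⟩
    rw [N] at k
    obtain ⟨p, q, p0, p1, p2, p3, -⟩ := pig m w w (i + x.n)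
    obtain ⟨z, z1, -, z3, z4⟩ := pump hm hB h p3 p1.le (by omega)
    obtain ⟨e, he⟩ := Nat.exists_eq_add_of_le (show q ≤ i + d by omega)
    have := z4 y e (he ▸ b)
    exact ih (p + e - i) (by omega) z i z1 (z3 x i a (by omega))
      (by rwa [show i + (p + e - i) = p + e by omega])

theorem J_iff (hm : 0 < m) (hB : ∀ b ∈ B, b.n ≤ m) (hx : ok B x) (hy : ok B y) :
    J B x y ↔ ∃ w : Pc, w.n ≤ x.n + y.n + N m ∧ JW B w x y fun _ _ => True := by
  refine ⟨fun ⟨w, i, j, a, b, c⟩ => ?_, fun ⟨w, _, a, i, _, j, _, b, c, _⟩ => ⟨w, i, j, a, b, c⟩⟩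
  rcases le_total i j with h | h <;> obtain ⟨d, rfl⟩ := Nat.exists_eq_add_of_le h
  · exact J_le hm hB hx.1 d w i a b c
  · obtain ⟨w, e, a, i, -, j, -, b, c, -⟩ := J_le hm hB hy.1 d w j a c b
    exact ⟨w, by omega, .mk' a c b trivial⟩

theorem Sh.two {x' y' : Pc} (hx : Sh B m x x') (hy : Sh B m y y') (h : ok B w) (a : occ x' w i)
    (b : occ y' w j) (e : i + x'.n ≤ j + m) :
    ∃ w i' j', ok B w ∧ occ x w i' ∧ occ y w j' ∧ j' + i + x'.n = j + i' + x.n := by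
  obtain ⟨w, i', c1, c2, c3⟩ := hx.l w i h a
  obtain ⟨j', c4, c5⟩ := c3 _ _ b e
  obtain ⟨w', d1, d2, d3⟩ := hy.r w j' c1 c4
  exact ⟨w', i', j', d1, d3 _ _ c2 (by omega), d2, c5⟩

def cF (B : Set Pc) (m : ℕ) : Prop := (∀ x : Pc, x.n ≤ m → ok B x → x.n ≠ m) ∧
  ∀ x : Pc, x.n ≤ m → ∀ y : Pc, y.n ≤ m → ok B x ∧ ok B y →
    ∃ w : Pc, w.n ≤ m ∧ JW B w x y fun _ _ => True

def cD (B : Set Pc) (m M : ℕ) : Prop :=
  ∀ x : Pc, x.n ≤ N m → ∀ y : Pc, y.n ≤ N m → ok B x ∧ ok B y →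
    ∃ w : Pc, w.n ≤ M ∧ JW B w x y fun i j => i + x.n ≤ j ∨ j + y.n ≤ i

def cL (B : Set Pc) (m : ℕ) : Prop :=
  ∀ x : Pc, x.n ≤ 2 * m → ok B x → ∀ a < x.n, ∀ b < x.n, x.E a b → b < a + m

def cU (B : Set Pc) (t : Pc) : Prop :=
  ∀ y : Pc, y.n ≤ 3 * N t.n → ∀ z : Pc, z.n ≤ 3 * N t.n → ok B y → ok B z → y.n = z.n →
    ∀ i ≤ y.n, occ t y i → occ t z i → occ y z 0

def cE (B : Set Pc) (t : Pc) (M : ℕ) : Prop :=
  ∀ x : Pc, x.n ≤ N t.n → ∀ y : Pc, y.n ≤ N t.n → ok B x →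
    ∃ w : Pc, w.n ≤ M ∧ JW B w x t fun _ _ => True

def cG (B : Set Pc) (t : Pc) (M : ℕ) : Prop :=
  ∀ x : Pc, x.n ≤ N t.n → ∀ y : Pc, y.n ≤ N t.n →
    ok B x ∧ ok B y ∧ occ t y 0 ∧ (∃ k ≤ x.n, occ t x k ∧ k + t.n = x.n) →
    ∃ w : Pc, w.n ≤ M ∧ JW B w x y fun i j => j + t.n = i + x.n

theorem lt_of_none (hm : 0 < m) (h : ∀ x : Pc, x.n ≤ m → ok B x → x.n ≠ m) (hx : ok B x) :
    x.n ≤ m := by
  by_contra k
  exact h (sub x 0 m) le_rfl (hx.of_occ (occ_sub (by omega)) hm) rfl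

theorem cF.atom (hm : 0 < m) (h : cF B m) : Atom B := fun x y hx hy => by
  obtain ⟨w, -, a, i, -, j, -, b, c, -⟩ :=
    h.2 x (lt_of_none hm h.1 hx) y (lt_of_none hm h.1 hy) ⟨hx, hy⟩
  exact ⟨w, i, j, a, b, c⟩

theorem cD.atom {M} (hm : 0 < m) (hB : ∀ b ∈ B, b.n ≤ m) (h : cD B m M) : Atom B :=
  fun x y hx hy => by
  obtain ⟨x', x1, x2, x3⟩ := shrink hm hB subset_rfl hx
  obtain ⟨y', y1, y2, y3⟩ := shrink hm hB subset_rfl hy
  obtain ⟨w, -, a, i, -, j, -, b, c, e | e⟩ := h x' x2 y' y2 ⟨x1, y1⟩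
  · obtain ⟨w, i, j, a, b, c, -⟩ := x3.two y3 a b c (by omega)
    exact ⟨w, i, j, a, b, c⟩
  · obtain ⟨w, i, j, a, b, c, -⟩ := y3.two x3 a c b (by omega)
    exact ⟨w, j, i, a, c, b⟩

theorem del_edge (hB : ∀ b ∈ B, b.n ≤ m) (hx : ok B x) {a b} (h : a + m ≤ b) :
    ∃ y, ok B y ∧ y.n = x.n ∧ (∀ c d, d < c + m → (x.E c d ↔ y.E c d)) ∧
      y.E = fun c d => x.E c d ∧ ¬(c = a ∧ d = b) := by
  let y : Pc := ⟨x.n, fun c d => x.E c d ∧ ¬(c = a ∧ d = b), fun g => x.lt g.1⟩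
  have e : ∀ c d, d < c + m → (x.E c d ↔ y.E c d) := fun c d g =>
    ⟨fun k => ⟨k, by omega⟩, fun k => k.1⟩
  exact ⟨y, short_ok hB hx rfl e (hx.2.1.mono fun _ _ g => g.1), rfl, e, rfl⟩

theorem cL.all (hm : 0 < m) (hB : ∀ b ∈ B, b.n ≤ m) (h : cL B m) (hx : ok B x) {a b}
    (e : x.E a b) : b < a + m := by
  have key : ∀ y, ok B y → ∀ d a, m ≤ d → a + d < y.n → conn y a (a + d) := by
    intro y hy d
    induction d using Nat.strong_induction_on with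
    | _ d ih =>
      intro a h1 h2
      by_cases k : d < 2 * m
      · have o : occ (sub y a (d + 1)) y a := occ_sub (by omega)
        obtain ⟨z, z1, z2, -, z4, z5⟩ := add_edge hB hm (hy.of_occ o (by simp [sub])) (a := 0)
          (b := d) (by omega) (by simp [sub])
        refine o.conn (a := 0) (eqv_map id (fun c c' g => .rel _ _ ((z4 c c' ?_).2 g)) z5)
        have := z.lt g
        exact h z (by rw [z2]; simp only [sub]; omega) z1 c (by omega) c' this.2 g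
      · have := ih (d - m) (by omega) (a + m) (by omega) (by omega)
        rw [show a + m + (d - m) = a + d by omega] at this
        exact (ih m (by omega) a le_rfl (by omega)).trans _ _ _ this
  by_contra k
  obtain ⟨y, y1, y2, -, y3⟩ := del_edge hB hx (not_lt.1 k)
  have := key y y1 (b - a) a (by omega) (by have := x.lt e; omega)
  rw [show a + (b - a) = b by omega, conn, y3] at this
  exact hx.2.1 a b e this

theorem cU.all (hm : 0 < t.n) (hB : ∀ b ∈ B, b.n ≤ t.n) (hL : cL B t.n) (h : cU B t) :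
    ∀ n (y z : Pc) i, y.n = n → z.n = n → ok B y → ok B z → occ t y i → occ t z i → y = z := by
  intro n
  induction n using Nat.strong_induction_on with
  | _ n ih =>
    intro y z i e e' hy hz a b
    have a1 := a.1
    by_cases k : n ≤ 3 * N t.n
    · exact (occ_refl y).eq (w := y) ((h z (by omega) y (by omega) hz hy (by omega) i (by omega) b
        a)) (by omega)
    rw [N] at k
    refine Pc.ext (by omega) (funext fun c => funext fun d => propext ?_)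
    by_cases k' : ¬(c < d ∧ d < n ∧ d < c + t.n)
    · exact ⟨fun g => by have := y.lt g; have := hL.all hm hB hy g; omega,
        fun g => by have := z.lt g; have := hL.all hm hB hz g; omega⟩
    obtain ⟨s, s1, s2, s3⟩ : ∃ s, s + 16 ^ (t.n * t.n) + t.n ≤ n ∧
        (i ≤ s ∨ s + 16 ^ (t.n * t.n) ≤ i) ∧ (c ≤ s ∨ s + 16 ^ (t.n * t.n) ≤ c) := by
      by_cases k1 : 16 ^ (t.n * t.n) ≤ i <;> by_cases k2 : 16 ^ (t.n * t.n) ≤ c
      · exact ⟨0, by omega, by omega, by omega⟩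
      · by_cases k3 : c + 16 ^ (t.n * t.n) ≤ i
        exacts [⟨c, by omega, by omega, by omega⟩, ⟨i, by omega, by omega, by omega⟩]
      · by_cases k3 : i + 16 ^ (t.n * t.n) ≤ c
        exacts [⟨i, by omega, by omega, by omega⟩, ⟨c, by omega, by omega, by omega⟩]
      · exact ⟨max i c, by omega, by omega, by omega⟩
    obtain ⟨p, q, p0, p1, p2, p3, p4⟩ := pig t.n y z s
    obtain ⟨y', y1, y2, y3, y4⟩ := pump hm hB hy p3 p1.le (by omega)
    obtain ⟨z', z1, z2, z3, z4⟩ := pump hm hB hz p4 p1.le (by omega)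
    have key : ∀ (j : ℕ) (u v : Pc), u.n ≤ t.n → v.n ≤ t.n → (j ≤ s ∨ s + 16 ^ (t.n * t.n) ≤ j) →
        occ u y j → occ v z j → ∃ j', occ u y' j' ∧ occ v z' j' := by
      rintro j u v hu hv (g | g) o o'
      · exact ⟨j, y3 u j o (by omega), z3 v j o' (by omega)⟩
      · obtain ⟨e, rfl⟩ := Nat.exists_eq_add_of_le (show q ≤ j by omega)
        exact ⟨_, y4 u e o, z4 v e o'⟩
    obtain ⟨i', b1, b2⟩ := key i t t le_rfl le_rfl s2 a b
    obtain rfl := ih y'.n (by omega) y' z' i' rfl (by omega) y1 z1 b1 b2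
    obtain ⟨d, rfl⟩ := Nat.exists_eq_add_of_le (show c ≤ d by omega)
    have o : occ (sub y c (d + 1)) y c := occ_sub (by omega)
    have o' : occ (sub z c (d + 1)) z c := occ_sub (by omega)
    obtain ⟨j, b1, b2⟩ := key c _ _ (by simp only [sub]; omega) (by simp only [sub]; omega) s3 o o'
    have := (o.2 0 d (by simp [sub])).symm.trans ((b1.eq b2 rfl) ▸ o'.2 0 d (by simp [sub]))
    exact this

theorem cE.all {M} (hm : 0 < t.n) (hB : ∀ b ∈ B, b.n ≤ t.n) (h : cE B t M) (hx : ok B x) :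
    J B x t := by
  by_cases k : ∃ i, occ t x i
  · exact ⟨x, 0, k.choose, hx, occ_refl x, k.choose_spec⟩
  obtain ⟨x', x1, x2, x3⟩ := shrink (B := B) (B' := insert t B) hm
    (by rintro b (rfl | hb); exacts [le_rfl, hB b hb]) (Set.subset_insert _ _)
    ⟨hx.1, hx.2.1, by rintro b (rfl | hb) i; exacts [fun g => k ⟨i, g⟩, hx.2.2 b hb i]⟩
  obtain ⟨w, -, a, i, -, j, -, b, c, -⟩ :=
    h x' x2 x' x2 ⟨x1.1, x1.2.1, fun b hb => x1.2.2 b (Or.inr hb)⟩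
  rcases le_total j i with e | e
  · obtain ⟨w', d1, d2, d3⟩ := x3.r w i a b
    exact ⟨w', i, j, d1, d2, d3 _ _ c (by omega)⟩
  · obtain ⟨w', i', d1, d2, d3⟩ := x3.l w i a b
    obtain ⟨d, rfl⟩ := Nat.exists_eq_add_of_le e
    obtain ⟨j', d4, -⟩ := d3 _ _ c (by
      by_contra g
      exact x1.2.2 t (Or.inl rfl) d (c.inside b (by omega)))
    exact ⟨w', i', j', d1, d2, d4⟩

theorem atom_of_P {M M'} (ht : ok B t) (hB : ∀ b ∈ B, b.n ≤ t.n) (hL : cL B t.n) (hU : cU B t)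
    (hE : cE B t M) (hG : cG B t M') : Atom B := by
  intro x y hx hy
  have hm := ht.1
  obtain ⟨z, i0, i, z1, z2, z3⟩ := hE.all hm hB hx
  obtain ⟨z', j0, j, y1, y2, y3⟩ := hE.all hm hB hy
  have a1 := z3.1
  have a2 := y3.1
  have L : ∀ z i, ok B z → occ t z i → ∃ u, ok B u ∧ occ t u i ∧ i + t.n = u.n := fun z i a b =>
    ⟨sub z 0 (i + t.n), a.of_occ (occ_sub (by simpa using b.1)) (by simp only [sub]; omega),
      occ.inside (i := 0) (by simpa using b) (occ_sub (by simpa using b.1)) le_rfl, rfl⟩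
  have R : ∀ z i, ok B z → occ t z i → ∃ v, ok B v ∧ occ t v 0 ∧ i + v.n = z.n := fun z i a b => by
    have := b.1
    exact ⟨sub z i (z.n - i), a.of_occ (occ_sub (by omega)) (by simp only [sub]; omega),
      occ.inside (d := 0) b (occ_sub (by omega)) (by simp only [sub]; omega),
      by simp only [sub]; omega⟩
  obtain ⟨u, I, u1, u2, u3, u4, u5⟩ : ∃ u I, ok B u ∧ occ t u I ∧ I + t.n = u.n ∧ i ≤ I ∧ j ≤ I := by
    rcases le_total i j with e | e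
    · obtain ⟨u, a, b, c⟩ := L z' j y1 y3
      exact ⟨u, j, a, b, c, e, le_rfl⟩
    · obtain ⟨u, a, b, c⟩ := L z i z1 z3
      exact ⟨u, i, a, b, c, le_rfl, e⟩
  obtain ⟨v, v1, v2, v3, v4⟩ : ∃ v, ok B v ∧ occ t v 0 ∧ z.n ≤ i + v.n ∧ z'.n ≤ j + v.n := by
    rcases le_total (i + z'.n) (j + z.n) with e | e
    · obtain ⟨v, a, b, c⟩ := R z i z1 z3
      exact ⟨v, a, b, by omega, by omega⟩
    · obtain ⟨v, a, b, c⟩ := R z' j y1 y3
      exact ⟨v, a, b, by omega, by omega⟩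
  obtain ⟨u', p1, p2, p3⟩ := shrink hm hB subset_rfl u1
  obtain ⟨v', q1, q2, q3⟩ := shrink hm hB subset_rfl v1
  obtain ⟨k, k1, k2⟩ := p3.b t I rfl u2 u3
  obtain ⟨w, -, a, i', -, j', -, b, c, e⟩ :=
    hG u' p2 v' q2 ⟨p1, q1, q3.a t rfl v2, k, by omega, k1, k2⟩
  obtain ⟨w, p, q, a, b, c, e'⟩ := p3.two q3 a b c (by omega)
  have F : ∀ z i, ok B z → occ t z i → i ≤ I → z.n ≤ i + v.n → ∃ k, occ z w k := by
    intro z i h1 h2 h3 h4
    obtain ⟨d, rfl⟩ := Nat.exists_eq_add_of_le h3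
    have := c.1
    have o : occ (sub w (p + d) z.n) w (p + d) := occ_sub (by omega)
    have g := u2.trans b
    rw [show p + (i + d) = p + d + i by omega] at g
    exact ⟨_, (hU.all hm hB hL z.n z (sub w (p + d) z.n) i rfl rfl h1 (a.of_occ o h1.1) h2
      (g.inside o h2.1)).symm ▸ o⟩
  obtain ⟨k, g⟩ := F z i z1 z3 u4 v3
  obtain ⟨k', g'⟩ := F z' j y1 y3 u5 v4
  exact ⟨w, _, _, a, z2.trans g, y2.trans g'⟩

def Cert (B : Set Pc) (m : ℕ) (t : Pc) (M M' : ℕ) : Prop := cF B m ∨ cD B m M ∨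
  (ok B t ∧ m ≤ t.n ∧ cL B t.n ∧ cU B t ∧ cE B t M ∧ cG B t M')

theorem atom_iff (hm : 0 < m) (hB : ∀ b ∈ B, b.n ≤ m) : Atom B ↔ ∃ t M M', Cert B m t M M' := by
  refine ⟨fun h => ?_, ?_⟩
  swap
  · rintro ⟨t, M, M', h | h | ⟨a, b, c, d, e, f⟩⟩
    exacts [h.atom hm, h.atom hm hB, atom_of_P a (fun x hx => (hB x hx).trans b) c d e f]
  by_cases hF : ∀ x : Pc, x.n ≤ m → ok B x → x.n ≠ m
  · refine ⟨P (0, []), 0, 0, Or.inl ⟨hF, fun x _ y _ g => ?_⟩⟩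
    obtain ⟨w, i, j, a, b, c⟩ := h x y g.1 g.2
    exact ⟨w, lt_of_none hm hF a, .mk' a b c trivial⟩
  by_cases hD : ∀ x y, ok B x ∧ ok B y → ∃ w, JW B w x y fun i j => i + x.n ≤ j ∨ j + y.n ≤ i
  · obtain ⟨M, hM⟩ := finsup (N m) hD
    exact ⟨P (0, []), M, 0, Or.inr (Or.inl hM)⟩
  simp only [not_forall, not_not] at hF hD
  obtain ⟨y0, -, y1, y2⟩ := hF
  obtain ⟨x, y, ⟨hx, hy⟩, hD⟩ := hD
  obtain ⟨x0, ix, iy, a, b, c⟩ := h x y hx hy
  let S : Set ℕ := {d | ∃ w i, ok B w ∧ occ x0 w i ∧ occ x0 w (i + d)}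
  have hS : BddAbove S := ⟨x0.n, by
    rintro d ⟨w, i, p, q, r⟩
    by_contra g
    exact hD ⟨w, .mk' p (b.trans q) (c.trans r) (Or.inl (by have := b.1; omega))⟩⟩
  obtain ⟨w, i, p, q, r⟩ := Nat.sSup_mem (s := S) ⟨0, x0, 0, a, occ_refl _, occ_refl _⟩ hS
  have o : occ (sub w i (sSup S + x0.n)) w i := occ_sub (by have := r.1; omega)
  have o1 := occ.inside (d := 0) q o (by simp [sub])
  have o2 := r.inside o le_rfl
  obtain ⟨t, k, _, ht, t1, t2⟩ := h _ y0 (p.of_occ o (by have := a.1; simp only [sub]; omega)) y1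
  have tm : m ≤ t.n := by have := t2.1; omega
  have hB' : ∀ b ∈ B, b.n ≤ t.n := fun b hb => (hB b hb).trans tm
  have U : ∀ w i j, ok B w → occ t w i → occ t w j → i ≤ j := by
    intro w i j g g1 g2
    by_contra g3
    have : sSup S + (i - j) ∈ S := ⟨w, _, g, o1.trans (t1.trans g2), by
      have := o2.trans (t1.trans g1)
      rwa [show i + k + sSup S = j + k + 0 + (sSup S + (i - j)) by omega] at this⟩
    have := le_csSup hS this
    omega
  have AJ : ∀ z z' i j, ok B z → ok B z' → occ t z i → occ t z' j →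
      ∃ w p q, ok B w ∧ occ z w p ∧ occ z' w q ∧ p + i = q + j := by
    intro z z' i j g1 g2 g3 g4
    obtain ⟨w, p, q, a, b, c⟩ := h z z' g1 g2
    exact ⟨w, p, q, a, b, c, le_antisymm (U w _ _ a (g3.trans b) (g4.trans c))
      (U w _ _ a (g4.trans c) (g3.trans b))⟩
  have UU : ∀ z z' i, ok B z → ok B z' → z.n = z'.n → occ t z i → occ t z' i → z = z' := by
    intro z z' i g1 g2 e g3 g4
    obtain ⟨w, p, q, a, b, c, d⟩ := AJ z z' i i g1 g2 g3 g4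
    exact b.eq (show p = q by omega ▸ c) e
  obtain ⟨M, hM⟩ := finsup (N t.n) (H := fun x _ => ok B x)
    (Q := fun x _ w => JW B w x t fun _ _ => True) fun x _ g => by
      obtain ⟨w, i, j, a, b, c⟩ := h x t g ht
      exact ⟨w, .mk' a b c trivial⟩
  obtain ⟨M', hM'⟩ := finsup (N t.n)
    (H := fun x y => ok B x ∧ ok B y ∧ occ t y 0 ∧ (∃ k ≤ x.n, occ t x k ∧ k + t.n = x.n))
    (Q := fun x y w => JW B w x y fun i j => j + t.n = i + x.n)
    fun x y ⟨g1, g2, g3, k, _, g4, g5⟩ => by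
      obtain ⟨w, p, q, a, b, c, d⟩ := AJ x y k 0 g1 g2 g4 g3
      exact ⟨w, .mk' a b c (by omega)⟩
  refine ⟨t, M, M', Or.inr (Or.inr ⟨ht, tm, fun x _ g a _ b _ e => ?_,
    fun y _ z _ g1 g2 e i _ g3 g4 => UU y z i g1 g2 e g3 g4 ▸ occ_refl y, hM, hM'⟩)⟩
  by_contra g'
  obtain ⟨w, i, j, g1, g2, g3⟩ := h x t g ht
  obtain ⟨z, z1, z2, z3, z4⟩ := del_edge hB' g1 (a := i + a) (b := i + b) (by omega)
  have := UU w z j g1 z1 z2.symm g3 ⟨z2 ▸ g3.1, fun c d hd => by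
    rw [g3.2 c d hd, z3 _ _ (by omega)]⟩
  have e' := g2.edge e
  rw [this, z4] at e'
  exact e'.2 ⟨rfl, rfl⟩

end Pool.Agent.H.MP_ab000d_co
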